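import Pool.Agent.H699.T.Dec

/-! Averaging over the radii; tours for approximate distances. -/

set_option autoImplicit false

namespace Pool.Agent.H286.T.AVG

open Finset Classical Pool.Agent.H699.T

/-- consecutive pairs -/
def pw {α : Type} : List α → List (α × α)
  | [] => []
  | [_] => []
  | a :: b :: l => (a, b) :: pw (b :: l)

/-- cyclically consecutive pairs -/
def cp {α : Type} : List α → List (α × α)
  | [] => []
  | a :: l => pw (a :: (l ++ [a]))

theorem walk_pw {α : Type} (d : α → α → ℝ) : ∀ l : List α,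
    walk d l = ((pw l).map fun p => d p.1 p.2).sum
  | [] => by simp [walk, pw]
  | [_] => by simp [walk, pw]
  | a :: b :: l => by
      have ih := walk_pw d (b :: l)
      simp only [walk, pw, List.map_cons, List.sum_cons, ih]

theorem cyc_cp {α : Type} (d : α → α → ℝ) (l : List α) :
    cyc d l = ((cp l).map fun p => d p.1 p.2).sum := by
  cases l with
  | nil => simp [cyc, cp]
  | cons a l => exact walk_pw d _

theorem pw_len {α : Type} : ∀ (a : α) (l : List α), (pw (a :: l)).length = l.length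
  | _, [] => rfl
  | _, b :: l => by
      have ih := pw_len b l
      simp only [pw, List.length_cons, ih]

theorem cp_len {α : Type} (l : List α) : (cp l).length = l.length := by
  cases l with
  | nil => rfl
  | cons a l =>
    show (pw (a :: (l ++ [a]))).length = _
    rw [pw_len]
    simp

theorem pw_mem {α : Type} : ∀ (l : List α) (p : α × α), p ∈ pw l → p.1 ∈ l ∧ p.2 ∈ l
  | [], p, h => by simp [pw] at h
  | [_], p, h => by simp [pw] at h
  | a :: b :: l, p, h => by
      simp only [pw, List.mem_cons] at h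
      rcases h with h | h
      · subst h
        simp
      · have ih := pw_mem (b :: l) p h
        exact ⟨List.mem_cons_of_mem _ ih.1, List.mem_cons_of_mem _ ih.2⟩

theorem cp_mem {α : Type} (l : List α) (p : α × α) (h : p ∈ cp l) : p.1 ∈ l ∧ p.2 ∈ l := by
  cases l with
  | nil => simp [cp] at h
  | cons a l =>
    have h1 := pw_mem _ p h
    have h2 : ∀ x, x ∈ a :: (l ++ [a]) → x ∈ a :: l := by
      intro x hx
      simp only [List.mem_cons, List.mem_append, List.not_mem_nil, or_false] at hx ⊢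
      tauto
    exact ⟨h2 _ h1.1, h2 _ h1.2⟩

theorem sum_comm_list {ι β : Type} (s : Finset ι) (L : List β) (F : ι → β → ℝ) :
    ∑ i ∈ s, (L.map (F i)).sum = (L.map fun p => ∑ i ∈ s, F i p).sum := by
  induction L with
  | nil => simp
  | cons p L ih => simp only [List.map_cons, List.sum_cons, Finset.sum_add_distrib, ih]

theorem sum_bound_list {β : Type} (L : List β) (F G : β → ℝ) (h : ∀ p ∈ L, F p ≤ G p) :
    (L.map F).sum ≤ (L.map G).sum := by
  induction L with
  | nil => simp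
  | cons p L ih =>
    simp only [List.map_cons, List.sum_cons]
    exact add_le_add (h p (by simp)) (ih fun q hq => h q (List.mem_cons_of_mem _ hq))

theorem sum_aff_list {β : Type} (L : List β) (F : β → ℝ) (u v : ℝ) :
    (L.map fun p => u * F p + v).sum = u * (L.map F).sum + v * L.length := by
  induction L with
  | nil => simp
  | cons p L ih =>
    simp only [List.map_cons, List.sum_cons, ih, List.length_cons]
    push_cast
    ring

/-- counting the multiples of `ρ` in an interval -/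
theorem cnt (s : Finset ℕ) {ρ a b : ℝ} (hρ : 0 < ρ) (hab : a ≤ b) :
    ∑ i ∈ s, (if a ≤ i * ρ ∧ i * ρ < b then (1 : ℝ) else 0) ≤ (b - a) / ρ + 1 := by
  have h1 : ∑ i ∈ s, (if a ≤ i * ρ ∧ i * ρ < b then (1 : ℝ) else 0) =
      ((s.filter fun i : ℕ => a ≤ i * ρ ∧ i * ρ < b).card : ℝ) := by
    rw [Finset.card_filter]
    push_cast
    rfl
  rw [h1]
  have hsub : (s.filter fun i : ℕ => a ≤ i * ρ ∧ i * ρ < b) ⊆ Finset.Ico ⌈a / ρ⌉₊ ⌈b / ρ⌉₊ := by
    intro i hi
    rw [Finset.mem_filter] at hi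
    rw [Finset.mem_Ico, Nat.ceil_le, Nat.lt_ceil, div_le_iff₀ hρ, lt_div_iff₀ hρ]
    exact hi.2
  have h2 : ((s.filter fun i : ℕ => a ≤ i * ρ ∧ i * ρ < b).card : ℝ) ≤
      ((⌈b / ρ⌉₊ - ⌈a / ρ⌉₊ : ℕ) : ℝ) := by
    have := Finset.card_le_card hsub
    rw [Nat.card_Ico] at this
    exact_mod_cast this
  refine h2.trans ?_
  have h3 : 0 ≤ (b - a) / ρ := div_nonneg (by linarith) hρ.le
  rcases le_total ⌈b / ρ⌉₊ ⌈a / ρ⌉₊ with h | h
  · rw [Nat.sub_eq_zero_of_le h]
    push_cast
    linarith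
  · rw [Nat.cast_sub h]
    rcases le_or_gt (b / ρ) 0 with hb | hb
    · rw [Nat.ceil_eq_zero.2 hb] at h ⊢
      have : ⌈a / ρ⌉₊ = 0 := by omega
      rw [this]
      push_cast
      linarith
    · have h4 := Nat.ceil_lt_add_one hb.le
      have h5 := Nat.le_ceil (a / ρ)
      rw [sub_div]
      linarith

theorem harm (K1 : ℕ) (hK : 1 ≤ K1) (X : ℝ) :
    ∃ KJ : ℕ, K1 ≤ KJ ∧ X ≤ ∑ i ∈ Finset.Icc K1 KJ, 1 / (i : ℝ) := by
  have h1 := Real.tendsto_sum_range_one_div_nat_succ_atTop
  obtain ⟨N, hN1, hN2⟩ := ((h1.eventually_ge_atTop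
    (X + ∑ i ∈ range K1, (1 / ((i : ℝ) + 1)))).and (Filter.eventually_ge_atTop K1)).exists
  refine ⟨N, hN2, ?_⟩
  have h2 : ∑ i ∈ Finset.Ico K1 N, (1 / ((i : ℝ) + 1)) ≤ ∑ i ∈ Finset.Icc K1 N, 1 / (i : ℝ) := by
    calc ∑ i ∈ Finset.Ico K1 N, (1 / ((i : ℝ) + 1)) ≤ ∑ i ∈ Finset.Ico K1 N, 1 / (i : ℝ) := by
          refine Finset.sum_le_sum fun i hi => ?_
          rw [Finset.mem_Ico] at hi
          have : (0 : ℝ) < i := by exact_mod_cast (by omega : 0 < i)
          exact one_div_le_one_div_of_le this (by linarith)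
      _ ≤ _ := Finset.sum_le_sum_of_subset_of_nonneg Finset.Ico_subset_Icc_self
          (fun i _ _ => by positivity)
  rw [Finset.sum_Ico_eq_sub _ hN2] at h2
  linarith

theorem t_AVG : S_AVG := by
  intro h0 K1 η1 ε hh0 hK1 hη hε
  obtain ⟨KJ, hKJ, hH⟩ := harm K1 hK1 (6 * (h0 : ℝ) ^ 2 * (1 + 1 / η1) / ε)
  refine ⟨KJ, hKJ, ?_⟩
  intro n d hd C ρ l hC hρ hnd hl hcyc
  have hlen : (l.length : ℝ) ≤ n := by
    have h1 := List.toFinset_card_of_nodup hnd
    have h2 := Finset.card_le_univ l.toFinset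
    rw [h1, Fintype.card_fin] at h2
    exact_mod_cast h2
  set T : ℝ := cyc d l with hT
  have hT0 : 0 ≤ T := le_trans (by positivity) hcyc
  by_contra hcon
  push Not at hcon
  set Sx : ℕ → ℝ := fun i => ∑ c ∈ C, ccnt (fun x y => (d c x ≤ i * ρ ∧ i * ρ < d c y) ∨
            (d c y ≤ i * ρ ∧ i * ρ < d c x)) l with hSx
  have hh0' : (0 : ℝ) < h0 := by exact_mod_cast (by omega : 0 < h0)
  -- upper bound of the sum
  have hup : ∑ i ∈ Finset.Icc K1 KJ, Sx i ≤ h0 * (T / ρ + n) := by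
    rw [hSx, Finset.sum_comm]
    have h1 : ∀ c ∈ C, ∑ i ∈ Finset.Icc K1 KJ, ccnt (fun x y => (d c x ≤ i * ρ ∧ i * ρ < d c y) ∨
            (d c y ≤ i * ρ ∧ i * ρ < d c x)) l ≤ T / ρ + n := by
      intro c _
      simp only [ccnt, cyc_cp]
      rw [sum_comm_list]
      refine le_trans (sum_bound_list _ _ (fun p => (1 / ρ) * d p.1 p.2 + 1) fun p _ => ?_) ?_
      · have htri : max (d c p.1) (d c p.2) - min (d c p.1) (d c p.2) ≤ d p.1 p.2 := by
          have h2 := hd.met.tri c p.1 p.2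
          have h3 := hd.met.tri c p.2 p.1
          rw [hd.met.symm p.2 p.1] at h3
          rcases le_total (d c p.1) (d c p.2) with h | h
          · rw [max_eq_right h, min_eq_left h]; linarith
          · rw [max_eq_left h, min_eq_right h]; linarith
        have h4 := cnt (Finset.Icc K1 KJ) hρ (min_le_max (a := d c p.1) (b := d c p.2))
        refine le_trans (Finset.sum_le_sum fun i _ => ?_) (h4.trans ?_)
        · by_cases hc1 : (d c p.1 ≤ i * ρ ∧ i * ρ < d c p.2) ∨
            (d c p.2 ≤ i * ρ ∧ i * ρ < d c p.1)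
          · rw [if_pos hc1, if_pos]
            rcases hc1 with hc1 | hc1
            · exact ⟨(min_le_left _ _).trans hc1.1, hc1.2.trans_le (le_max_right _ _)⟩
            · exact ⟨(min_le_right _ _).trans hc1.1, hc1.2.trans_le (le_max_left _ _)⟩
          · rw [if_neg hc1]
            split_ifs <;> norm_num
        · have h5 : (max (d c p.1) (d c p.2) - min (d c p.1) (d c p.2)) / ρ ≤
              d p.1 p.2 / ρ := by gcongr
          rw [one_div, inv_mul_eq_div]
          linarith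
      · rw [sum_aff_list, ← cyc_cp, cp_len, ← hT, one_mul, one_div, inv_mul_eq_div]
        linarith
    calc ∑ c ∈ C, ∑ i ∈ Finset.Icc K1 KJ, _ ≤ ∑ c ∈ C, (T / ρ + n) := Finset.sum_le_sum h1
      _ = C.card * (T / ρ + n) := by rw [Finset.sum_const, nsmul_eq_mul]
      _ ≤ _ := by
          have : (C.card : ℝ) ≤ h0 := by exact_mod_cast hC
          gcongr
  -- lower bound
  have hlo : ∑ i ∈ Finset.Icc K1 KJ, (ε * T / (6 * h0 * ρ)) * (1 / (i : ℝ)) <
      ∑ i ∈ Finset.Icc K1 KJ, Sx i := by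
    refine Finset.sum_lt_sum_of_nonempty ⟨K1, Finset.mem_Icc.2 ⟨le_rfl, hKJ⟩⟩ fun i hi => ?_
    rw [Finset.mem_Icc] at hi
    have h1 := hcon i hi.1 hi.2
    have hi0 : (0 : ℝ) < i := by exact_mod_cast (by omega : 0 < i)
    rw [div_mul_div_comm, mul_one, div_lt_iff₀ (by positivity)]
    calc ε * T < 6 * h0 * (i * ρ) * Sx i := h1
      _ = Sx i * (6 * h0 * ρ * i) := by ring
  rw [← Finset.mul_sum] at hlo
  have h6 : (n : ℝ) ≤ T / (η1 * ρ) := by
    rw [le_div_iff₀ (by positivity)]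
    calc (n : ℝ) * (η1 * ρ) = η1 * n * ρ := by ring
      _ ≤ T := hcyc
  have h7 : h0 * (T / ρ + n) ≤ h0 * (T / ρ + T / (η1 * ρ)) := by gcongr
  have h8 : (ε * T / (6 * h0 * ρ)) * (6 * (h0 : ℝ) ^ 2 * (1 + 1 / η1) / ε) ≤
      (ε * T / (6 * h0 * ρ)) * ∑ i ∈ Finset.Icc K1 KJ, 1 / (i : ℝ) := by gcongr
  have h9 : (ε * T / (6 * h0 * ρ)) * (6 * (h0 : ℝ) ^ 2 * (1 + 1 / η1) / ε) =
      h0 * (T / ρ + T / (η1 * ρ)) := by
    field_simp
  linarith

theorem met_nonneg {α : Type} {d : α → α → ℝ} (hd : IsMet d) (x y : α) : 0 ≤ d x y := by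
  have h1 := hd.tri x y x
  rw [hd.self, hd.symm y x] at h1
  linarith

theorem t_TSPN : S_TSPLE → S_TSPATT → S_TSPN := by
  intro hle hatt n d d' hd S b hb hdd hdb
  have hmono : ∀ l : List (Fin n), cyc d l ≤ cyc d' l := by
    intro l
    rw [cyc_cp, cyc_cp]
    exact sum_bound_list _ _ _ fun p _ => hdd p.1 p.2
  constructor
  · refine le_csInf ⟨cyc d' S.toList, S.toList, S.nodup_toList, S.toList_toFinset, rfl⟩ ?_
    rintro c ⟨l, hnd, hl, rfl⟩
    refine le_trans (hle (Fin n) d hd.met S l fun x hx => ?_) (hmono l)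
    rw [← hl] at hx
    exact List.mem_toFinset.1 hx
  · obtain ⟨l, hnd, hl, hc⟩ := hatt (Fin n) d hd.met S
    have hmem : ∀ x, x ∈ l ↔ x ∈ S := by
      intro x
      rw [← hl]
      exact (@List.mem_toFinset _ (fun a b => Classical.propDecidable (a = b)) l x).symm
    have hbdd : BddBelow {c : ℝ | ∃ l : List (Fin n), l.Nodup ∧ l.toFinset = S ∧ c = cyc d' l} := by
      refine ⟨0, ?_⟩
      rintro c ⟨l', _, _, rfl⟩
      rw [cyc_cp]
      refine List.sum_nonneg ?_
      intro r hr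
      rw [List.mem_map] at hr
      obtain ⟨p, _, rfl⟩ := hr
      exact (met_nonneg hd.met p.1 p.2).trans (hdd p.1 p.2)
    refine (csInf_le hbdd ⟨l, hnd, ?_, rfl⟩).trans ?_
    · ext x
      rw [List.mem_toFinset]
      exact hmem x
    · rw [← hc, cyc_cp, cyc_cp]
      have h1 := sum_aff_list (cp l) (fun p => d p.1 p.2) b 0
      rw [zero_mul, add_zero] at h1
      rw [← h1]
      refine sum_bound_list _ _ _ fun p hp => ?_
      have h2 := cp_mem l p hp
      rw [add_zero]
      exact hdb p.1 ((hmem _).1 h2.1) p.2 ((hmem _).1 h2.2)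

end Pool.Agent.H286.T.AVG
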