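import Pool.Agent.H699.T.Base

/-! The infimum over permutations equals the length of a shortest tour. -/

set_option autoImplicit false

namespace Pool.Agent.H286.T.TSPPERM

open Finset Classical Pool.Agent.H699.T

theorem walk_cons_cons {α : Type} (d : α → α → ℝ) (a b : α) (l : List α) :
    walk d (a :: b :: l) = d a b + walk d (b :: l) := rfl

theorem walk_ofFn {α : Type} (d : α → α → ℝ) :
    ∀ (m : ℕ) (f : Fin (m + 1) → α),
      walk d (List.ofFn f) = ∑ i : Fin m, d (f i.castSucc) (f i.succ)
  | 0, f => by
      simp [List.ofFn_succ, walk]
  | (m + 1), f => by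
      have ih := walk_ofFn d m (fun i => f i.succ)
      rw [List.ofFn_succ, List.ofFn_succ, walk_cons_cons]
      rw [List.ofFn_succ] at ih
      rw [ih, Fin.sum_univ_succ]
      rfl

theorem walk_append_singleton {α : Type} (d : α → α → ℝ) (b : α) :
    ∀ (l : List α) (a : α), walk d ((a :: l) ++ [b]) =
      walk d (a :: l) + d ((a :: l).getLast (by simp)) b
  | [], a => by simp [walk]
  | (c :: l), a => by
      have ih := walk_append_singleton d b l c
      simp only [List.cons_append] at ih ⊢
      rw [walk_cons_cons, walk_cons_cons, ih]
      rw [List.getLast_cons_cons]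
      ring

theorem cyc_ofFn {α : Type} (d : α → α → ℝ) (n : ℕ) (f : Fin n → α) :
    cyc d (List.ofFn f) = ∑ i : Fin n, d (f i) (f (finRotate n i)) := by
  cases n with
  | zero => simp [cyc]
  | succ m =>
      have h1 : cyc d (List.ofFn f) = walk d (List.ofFn f ++ [f 0]) := by
        rw [List.ofFn_succ]; rfl
      have h2 : List.ofFn f = f 0 :: List.ofFn (fun i : Fin m => f i.succ) := List.ofFn_succ
      have h3 : walk d (List.ofFn f ++ [f 0]) = walk d (List.ofFn f) + d (f (Fin.last m)) (f 0) := by
        have := walk_append_singleton d (f 0) (List.ofFn (fun i : Fin m => f i.succ)) (f 0)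
        simp only [← h2] at this
        rw [this]
        congr 2
        rw [List.getLast_ofFn]
        congr 1
      rw [h1, h3, walk_ofFn, Fin.sum_univ_castSucc]
      congr 1
      · apply Finset.sum_congr rfl
        intro i _
        congr 2
        rw [finRotate_apply]
        simp
      · congr 2
        rw [finRotate_last]

theorem t_TSPPERM : S_TSPLE → S_TSPATT → S_TSPPERM := by
  intro hle hatt n d hd
  apply le_antisymm
  · obtain ⟨l, hnd, hl, hc⟩ := hatt (Fin n) d hd univ
    have hlen : l.length = n := by
      have hmem : ∀ x, x ∈ l := fun x => by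
        have h0 : x ∈ (univ : Finset (Fin n)) := mem_univ x
        rw [← hl] at h0
        exact (@List.mem_toFinset _ (fun a b => Classical.propDecidable (a = b)) l x).1 h0
      have h1 := List.toFinset_card_of_nodup hnd
      have h2 : l.toFinset = univ := by
        ext x
        simp [hmem x]
      rw [h2] at h1
      simpa using h1.symm
    let g : Fin n → Fin n := fun i => l.get (i.cast hlen.symm)
    have hinj : Function.Injective g := by
      intro a b hab
      have := (List.nodup_iff_injective_get.1 hnd) hab
      simpa using this
    have hbij : Function.Bijective g := Finite.injective_iff_bijective.1 hinj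
    let s : Equiv.Perm (Fin n) := Equiv.ofBijective g hbij
    have hs : List.ofFn (fun i => s i) = l := by
      apply List.ext_get
      · simp [hlen]
      · intro k h1 h2
        simp [s, g]
    have h3 := cyc_ofFn d n (fun i => s i)
    rw [hs, hc] at h3
    rw [h3]
    exact ciInf_le (Set.finite_range _).bddBelow s
  · apply le_ciInf
    intro s
    rw [← cyc_ofFn d n (fun i => s i)]
    apply hle _ d hd
    intro x _
    rw [List.mem_ofFn]
    exact ⟨s.symm x, by simp⟩

end Pool.Agent.H286.T.TSPPERM
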